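import Mathlib

/-!
# A 2-hyperperfect number which is not of the form `3 ^ (k - 1) * (3 ^ k - 2)`

`n = 3 ^ 16 * 129140227 * 256572153302107 * 225205396855537107298933866373` (60 digits) satisfies
`n = 1 + 2 (σ(n) - n - 1)`.  For `w = 3 ^ 16 * p` with `p = 3 ^ 17 + 64` one has `3 w - 2 σ(w) = 65`, and the equation
for the two remaining primes `q, r` is `(65 q - A) (65 r - A) = A ^ 2 + 65 (A - 1)` with `A = 2 σ(w)`; the number on the
right was factored.
-/

namespace Pool.Agent.Results.MP_469fc6_nt.NewForm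

/-- Modular exponentiation. -/
def pw (m : ℕ) : ℕ → ℕ → ℕ → ℕ
  | 0, _, _ => 1 % m
  | f + 1, a, e =>
    if e % 2 = 1 then a * pw m f (a * a % m) (e / 2) % m else pw m f (a * a % m) (e / 2)

theorem pw_eq (m : ℕ) : ∀ f a e : ℕ, e < 2 ^ f → pw m f a e = a ^ e % m
  | 0, a, e, h => by
    have : e = 0 := by simpa using h
    subst this; rfl
  | f + 1, a, e, h => by
    have h' : e / 2 < 2 ^ f := by
      rw [pow_succ] at h; omega
    have ih := pw_eq m f (a * a % m) (e / 2) h'
    have e1 : (a * a % m) ^ (e / 2) % m = a ^ (2 * (e / 2)) % m := by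
      rw [← Nat.pow_mod, pow_mul, pow_two]
    rw [pw, ih, e1]
    split_ifs with h2
    · have e2 : e = 2 * (e / 2) + 1 := by omega
      conv_rhs => rw [e2, pow_succ]
      rw [Nat.mul_mod, Nat.mod_mod, ← Nat.mul_mod, mul_comm]
    · have e2 : e = 2 * (e / 2) := by omega
      conv_rhs => rw [e2]

/-- Lucas' primality test with numerals. -/
theorem lucas (p a : ℕ) (hp : 1 < p ∧ p < 2 ^ 100) (h1' : pw p 100 a (p - 1) = 1) (l : List ℕ)
    (hl : ∀ q : ℕ, q.Prime → q ∣ p - 1 → q ∈ l)
    (h2' : ∀ q ∈ l, pw p 100 a ((p - 1) / q) ≠ 1) : p.Prime := by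
  obtain ⟨hp, hp'⟩ := hp
  have h1 : a ^ (p - 1) % p = 1 := by rw [← pw_eq p 100 a (p - 1) (by omega)]; exact h1'
  have h2 : ∀ q ∈ l, a ^ ((p - 1) / q) % p ≠ 1 := by
    intro q hq
    rw [← pw_eq p 100 a ((p - 1) / q) (lt_of_le_of_lt (Nat.div_le_self _ _) (by omega))]
    exact h2' q hq
  have key : ∀ k : ℕ, (a : ZMod p) ^ k = 1 ↔ a ^ k % p = 1 := by
    intro k
    have : ((a ^ k : ℕ) : ZMod p) = ((1 : ℕ) : ZMod p) ↔ a ^ k ≡ 1 [MOD p] :=
      ZMod.natCast_eq_natCast_iff _ _ _
    rw [Nat.ModEq, Nat.mod_eq_of_lt hp] at this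
    push_cast at this
    exact this
  refine lucas_primality p (a : ZMod p) ((key _).2 h1) ?_
  intro q hq hd h
  exact h2 q (hl q hq hd) ((key _).1 h)

theorem prime_p : Nat.Prime 129140227 := by norm_num

theorem prime_a : Nat.Prime 137002507849 := by
  refine lucas 137002507849 29 (by norm_num) (by decide +kernel) [2, 3, 23, 7489, 11047] ?_ ?_
  · intro q hq hd
    have e : 137002507849 - 1 = 2 ^ 3 * 3 ^ 2 * 23 * 7489 * 11047 := by norm_num
    rw [e] at hd
    simp only [List.mem_cons, List.not_mem_nil, or_false]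
    rcases (Nat.Prime.dvd_mul hq).1 hd with h | h
    · rcases (Nat.Prime.dvd_mul hq).1 h with h | h
      · rcases (Nat.Prime.dvd_mul hq).1 h with h | h
        · rcases (Nat.Prime.dvd_mul hq).1 h with h | h
          · left; exact (Nat.prime_dvd_prime_iff_eq hq Nat.prime_two).1 (hq.dvd_of_dvd_pow h)
          · right; left; exact (Nat.prime_dvd_prime_iff_eq hq Nat.prime_three).1 (hq.dvd_of_dvd_pow h)
        · right; right; left; exact (Nat.prime_dvd_prime_iff_eq hq (by norm_num)).1 h
      · right; right; right; left; exact (Nat.prime_dvd_prime_iff_eq hq (by norm_num)).1 h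
    · right; right; right; right; exact (Nat.prime_dvd_prime_iff_eq hq (by norm_num)).1 h
  · decide +kernel

theorem prime_b : Nat.Prime 153174091919 := by
  refine lucas 153174091919 7 (by norm_num) (by decide +kernel) [2, 53, 103, 14029501] ?_ ?_
  · intro q hq hd
    have e : 153174091919 - 1 = 2 * 53 * 103 * 14029501 := by norm_num
    rw [e] at hd
    simp only [List.mem_cons, List.not_mem_nil, or_false]
    rcases (Nat.Prime.dvd_mul hq).1 hd with h | h
    · rcases (Nat.Prime.dvd_mul hq).1 h with h | h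
      · rcases (Nat.Prime.dvd_mul hq).1 h with h | h
        · left; exact (Nat.prime_dvd_prime_iff_eq hq Nat.prime_two).1 h
        · right; left; exact (Nat.prime_dvd_prime_iff_eq hq (by norm_num)).1 h
      · right; right; left; exact (Nat.prime_dvd_prime_iff_eq hq (by norm_num)).1 h
    · right; right; right; exact (Nat.prime_dvd_prime_iff_eq hq (by norm_num)).1 h
  · decide +kernel

theorem prime_q : Nat.Prime 256572153302107 := by
  refine lucas 256572153302107 2 (by norm_num) (by decide +kernel) [2, 3, 991, 1931, 22346131] ?_ ?_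
  · intro q hq hd
    have e : 256572153302107 - 1 = 2 * 3 * 991 * 1931 * 22346131 := by norm_num
    rw [e] at hd
    simp only [List.mem_cons, List.not_mem_nil, or_false]
    rcases (Nat.Prime.dvd_mul hq).1 hd with h | h
    · rcases (Nat.Prime.dvd_mul hq).1 h with h | h
      · rcases (Nat.Prime.dvd_mul hq).1 h with h | h
        · rcases (Nat.Prime.dvd_mul hq).1 h with h | h
          · left; exact (Nat.prime_dvd_prime_iff_eq hq Nat.prime_two).1 h
          · right; left; exact (Nat.prime_dvd_prime_iff_eq hq Nat.prime_three).1 h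
        · right; right; left; exact (Nat.prime_dvd_prime_iff_eq hq (by norm_num)).1 h
      · right; right; right; left; exact (Nat.prime_dvd_prime_iff_eq hq (by norm_num)).1 h
    · right; right; right; right; exact (Nat.prime_dvd_prime_iff_eq hq (by norm_num)).1 h
  · decide +kernel

theorem prime_r : Nat.Prime 225205396855537107298933866373 := by
  refine lucas 225205396855537107298933866373 2 (by norm_num) (by decide +kernel)
    [2, 3, 894301, 137002507849, 153174091919] ?_ ?_
  · intro q hq hd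
    have e : 225205396855537107298933866373 - 1
        = 2 ^ 2 * 3 * 894301 * 137002507849 * 153174091919 := by norm_num
    rw [e] at hd
    simp only [List.mem_cons, List.not_mem_nil, or_false]
    rcases (Nat.Prime.dvd_mul hq).1 hd with h | h
    · rcases (Nat.Prime.dvd_mul hq).1 h with h | h
      · rcases (Nat.Prime.dvd_mul hq).1 h with h | h
        · rcases (Nat.Prime.dvd_mul hq).1 h with h | h
          · left; exact (Nat.prime_dvd_prime_iff_eq hq Nat.prime_two).1 (hq.dvd_of_dvd_pow h)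
          · right; left; exact (Nat.prime_dvd_prime_iff_eq hq Nat.prime_three).1 h
        · right; right; left; exact (Nat.prime_dvd_prime_iff_eq hq (by norm_num)).1 h
      · right; right; right; left; exact (Nat.prime_dvd_prime_iff_eq hq prime_a).1 h
    · right; right; right; right; exact (Nat.prime_dvd_prime_iff_eq hq prime_b).1 h
  · decide +kernel

theorem sum_prime (p : ℕ) (hp : p.Prime) : ∑ d ∈ p.divisors, d = p + 1 := by
  rw [hp.sum_divisors]

theorem sum_mul (a p : ℕ) (h : a.Coprime p) (hp : p.Prime) :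
    ∑ d ∈ (a * p).divisors, d = (∑ d ∈ a.divisors, d) * (p + 1) := by
  have := h.sum_divisors_mul
  rw [this, sum_prime p hp]

theorem sum_three : ∑ d ∈ (3 ^ 16 : ℕ).divisors, d = 64570081 := by
  rw [Nat.sum_divisors_prime_pow Nat.prime_three]
  norm_num [Finset.sum_range_succ]

theorem sum_all (p q r : ℕ) (hp : p.Prime) (hq : q.Prime) (hr : r.Prime)
    (h1 : Nat.Coprime (3 ^ 16) p) (h2 : Nat.Coprime (3 ^ 16 * p) q)
    (h3 : Nat.Coprime (3 ^ 16 * p * q) r) :
    ∑ d ∈ (3 ^ 16 * p * q * r).divisors, d = 64570081 * (p + 1) * (q + 1) * (r + 1) := by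
  rw [sum_mul _ _ h3 hr, sum_mul _ _ h2 hq, sum_mul _ _ h1 hp, sum_three]

/-- The statement for variable primes. -/
theorem main (p q r n : ℕ) (hn : n = 3 ^ 16 * p * q * r) (hp : p.Prime) (hq : q.Prime)
    (hr : r.Prime) (h1 : Nat.Coprime (3 ^ 16) p) (h2 : Nat.Coprime (3 ^ 16 * p) q)
    (h3 : Nat.Coprime (3 ^ 16 * p * q) r)
    (hs : 2 * (64570081 * (p + 1) * (q + 1) * (r + 1)) = 3 * n + 1)
    (hx : n ≠ 3 ^ 16 * (3 ^ 17 - 2)) :
    0 < n ∧ (n : ℤ) = 1 + 2 * (((∑ d ∈ n.divisors, d : ℕ) : ℤ) - n - 1) ∧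
    ¬ ∃ k : ℕ, 1 ≤ k ∧ n = 3 ^ (k - 1) * (3 ^ k - 2) := by
  have hpqr : ¬ 3 ∣ p * q * r := by
    intro hd
    have hc : Nat.Coprime 3 (p * q * r) := by
      have a1 : Nat.Coprime 3 p := Nat.Coprime.coprime_dvd_left (by norm_num) h1
      have a2 : Nat.Coprime 3 q :=
        Nat.Coprime.coprime_dvd_left (Dvd.dvd.mul_right (by norm_num) _) h2
      have a3 : Nat.Coprime 3 r :=
        Nat.Coprime.coprime_dvd_left
          (Dvd.dvd.mul_right (Dvd.dvd.mul_right (by norm_num) _) _) h3
      exact Nat.Coprime.mul_right (Nat.Coprime.mul_right a1 a2) a3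
    have := Nat.Coprime.eq_one_of_dvd hc hd
    omega
  refine ⟨?_, ?_, ?_⟩
  · rw [hn]
    have := hp.pos
    have := hq.pos
    have := hr.pos
    positivity
  · have h := sum_all p q r hp hq hr h1 h2 h3
    rw [← hn] at h
    rw [← h] at hs
    generalize (∑ d ∈ n.divisors, d : ℕ) = s at hs
    omega
  · rintro ⟨k, hk, h⟩
    -- the exponent of 3
    have h1 : ¬ (3 : ℕ) ∣ 3 ^ k - 2 := by
      intro hd
      have h3 : 3 ∣ 3 ^ k := dvd_pow_self 3 (by omega)
      have h4 : 3 ≤ 3 ^ k := Nat.le_of_dvd (by positivity) h3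
      omega
    have hk17 : k - 1 = 16 := by
      rcases lt_trichotomy (k - 1) 16 with h2 | h2 | h2
      · exfalso
        obtain ⟨j, hj⟩ : ∃ j, 16 = (k - 1) + 1 + j := ⟨16 - (k - 1) - 1, by omega⟩
        have e : 3 ^ 16 = 3 ^ (k - 1) * 3 * 3 ^ j := by
          rw [← pow_succ, ← pow_add, ← hj]
        have h5 : 3 ^ (k - 1) * (3 * (3 ^ j * p * q * r)) = 3 ^ (k - 1) * (3 ^ k - 2) := by
          rw [← h, hn, e]; ring
        have h6 := Nat.eq_of_mul_eq_mul_left (by positivity : 0 < 3 ^ (k - 1)) h5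
        exact h1 (Dvd.intro _ h6)
      · exact h2
      · exfalso
        obtain ⟨j, hj⟩ : ∃ j, k - 1 = 16 + (j + 1) := ⟨k - 1 - 16 - 1, by omega⟩
        rw [hj, pow_add, pow_succ, hn] at h
        have h5 : 3 ^ 16 * (p * q * r) = 3 ^ 16 * (3 * (3 ^ j * (3 ^ k - 2))) := by
          calc _ = 3 ^ 16 * p * q * r := by ring
            _ = 3 ^ 16 * (3 ^ j * 3) * (3 ^ k - 2) := h
            _ = _ := by ring
        have h6 := Nat.eq_of_mul_eq_mul_left (by positivity : 0 < 3 ^ 16) h5
        exact hpqr (Dvd.intro _ h6.symm)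
    obtain rfl : k = 17 := by omega
    exact hx h

/-- There is a number `n` with `n = 1 + 2 (σ(n) - n - 1)` (and `2 σ(n) = 3 n + 1`) which is not of the form
`3 ^ (k - 1) * (3 ^ k - 2)`, whatever the integer `k ≥ 1`. -/
theorem result : ∃ n : ℕ, 0 < n ∧ (n : ℤ) = 1 + 2 * (((∑ d ∈ n.divisors, d : ℕ) : ℤ) - n - 1) ∧
    ¬ ∃ k : ℕ, 1 ≤ k ∧ n = 3 ^ (k - 1) * (3 ^ k - 2) :=
  ⟨321210648228113097833688328004214356646685508531160153551637,
    main 129140227 256572153302107 225205396855537107298933866373 _ (by norm_num)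
      prime_p prime_q prime_r (by norm_num) (by norm_num) (by norm_num) (by norm_num) (by norm_num)⟩

end Pool.Agent.Results.MP_469fc6_nt.NewForm
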